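import Pool.Agent.Helper79.TL.Core

/-!
# TL-A2: the case `t = 1` in characteristic zero
-/

set_option autoImplicit false

open Module

namespace Pool.Agent.Helper79.TL.A2

/-- TL-A2 -/
theorem kside_triv {M : Type} [AddCommGroup M] [Module ℂ M] [Nontrivial M]
    {t s : Module.End ℂ M} {Y : Fin 3 → Module.End ℂ M} (h : HMod t s Y) (ht : t = 1) :
    ∃ m : M, m ≠ 0 ∧ (Zop t Y m = (112 : ℂ) • m ∨ Zop t Y m = (352 : ℂ) • m) := by
  subst ht
  have e1 : ∀ v, Y 0 (Y 0 v) = (16 : ℂ) • v + (16 : ℂ) • s v - (4 : ℂ) • Y 1 v := by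
    intro v
    have := congrArg (fun f : Module.End ℂ M => f v) h.r000
    simpa [Module.End.ofNat_apply, ← Nat.cast_smul_eq_nsmul ℂ] using this
  have e2 : ∀ v, Y 1 (Y 0 v) = -((4 : ℂ) • Y 0 v) - (4 : ℂ) • Y 1 v := by
    intro v
    have := congrArg (fun f : Module.End ℂ M => f v) h.r100
    simpa [Module.End.ofNat_apply, ← Nat.cast_smul_eq_nsmul ℂ] using this
  have e3 : ∀ v, Y 2 (Y 2 v) = (16 : ℂ) • v - (16 : ℂ) • s v - (4 : ℂ) • Y 2 v := by
    intro v
    have := congrArg (fun f : Module.End ℂ M => f v) h.r202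
    simpa [Module.End.ofNat_apply, ← Nat.cast_smul_eq_nsmul ℂ] using this
  have e4 : ∀ v, Y 0 (Y 0 v) = -((4 : ℂ) • Y 0 v) + (8 : ℂ) • Y 1 v := by
    intro v
    have h1 : Y 0 * Y 0 = -((1 + 1) * Y 0 * (1 + 1)) + (1 + 1) * Y 1 * (1 + 1) +
        (1 + 1) * Y 1 * (1 + 1) := by
      simpa using h.r010
    have := congrArg (fun f : Module.End ℂ M => f v) h1
    simp only [Module.End.mul_apply, LinearMap.add_apply, LinearMap.neg_apply,
      Module.End.one_apply, map_add] at this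
    rw [this]
    module
  have e5 : ∀ v, Y 1 (Y 0 v) = (4 : ℂ) • Y 1 v := by
    intro v
    have h1 : Y 1 * Y 0 = -((1 + 1) * Y 0 * (1 + 1)) + (1 + 1) * Y 0 * (1 + 1) +
        (1 + 1) * Y 1 * (1 + 1) := by
      simpa using h.r110
    have := congrArg (fun f : Module.End ℂ M => f v) h1
    simp only [Module.End.mul_apply, LinearMap.add_apply, LinearMap.neg_apply,
      Module.End.one_apply, map_add] at this
    rw [this]
    module
  have e6 : ∀ v, s (s v) = v := by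
    intro v
    have := congrArg (fun f : Module.End ℂ M => f v) h.ss
    simpa using this
  have f0 : ∀ v, Y 0 v = (-2 : ℂ) • Y 1 v := by
    intro v
    linear_combination (norm := module) (-1/4 : ℂ) • (e5 v) + (1/4 : ℂ) • (e2 v)
  have f1 : ∀ v, Y 1 v = (4/5 : ℂ) • (v + s v) := by
    intro v
    linear_combination (norm := module) (-1/20 : ℂ) • (e4 v) + (1/20 : ℂ) • (e1 v) + (1/5 : ℂ) • (f0 v)
  have f2 : ∀ v, s v = -v := by
    intro v
    have h1 := e5 v
    rw [f0 v, map_smul, f1 v, map_smul, f1 (v + s v), map_add, e6 v] at h1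
    linear_combination (norm := module) (-25/144 : ℂ) • h1
  have g1 : ∀ v, Y 1 v = 0 := by
    intro v
    rw [f1 v, f2 v]
    simp
  have g0 : ∀ v, Y 0 v = 0 := by
    intro v
    rw [f0 v, g1 v]
    simp
  have g2 : ∀ v, Y 2 (Y 2 v) = (32 : ℂ) • v - (4 : ℂ) • Y 2 v := by
    intro v
    rw [e3 v, f2 v]
    module
  have hZ : ∀ v, Zop 1 Y v = (32 : ℂ) • v + (5 : ℂ) • Y 2 (Y 2 v) := by
    intro v
    unfold Zop
    simp [Module.End.ofNat_apply, ← Nat.cast_smul_eq_nsmul ℂ, g0, g1]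
  obtain ⟨m, hm⟩ := exists_ne (0 : M)
  by_cases hY : Y 2 m + (8 : ℂ) • m = 0
  · refine ⟨m, hm, Or.inr ?_⟩
    have h1 : Y 2 m = (-8 : ℂ) • m := by linear_combination (norm := module) hY
    rw [hZ, h1, map_smul, h1]
    module
  · refine ⟨_, hY, Or.inl ?_⟩
    have h1 : Y 2 (Y 2 m + (8 : ℂ) • m) = (4 : ℂ) • (Y 2 m + (8 : ℂ) • m) := by
      rw [map_add, map_smul, g2]
      module
    rw [hZ, h1, map_smul, h1]
    module

end Pool.Agent.Helper79.TL.A2
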