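import Mathlib
import Pool.Agent.Helper87.TR.Chain

/-!
# Project TL: the two-row case of the strengthened Foulkes conjecture for large `n`: definitions

`mu d m k` is the dimension of the space of polynomials of degree `m` and weight `k` in `X_0, ..., X_d` killed by the
lowering operator (semi-invariants of binary forms of degree `d`).  The other definitions are used for
the construction of many linearly independent invariants.
-/

set_option autoImplicit false

open MvPolynomial Finset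

namespace Helper87.TL

open Helper87.TR

/-- semi-invariants of degree `m` and weight `k` of binary forms of degree `d` -/
noncomputable def hw (d m k : ℕ) : Submodule ℚ (MvPolynomial (Fin (d + 1)) ℚ) where
  carrier := {f | f ∈ Vw d m k ∧ t27b_S d f = 0}
  zero_mem' := ⟨(Vw d m k).zero_mem, map_zero _⟩
  add_mem' := fun hf hg => ⟨(Vw d m k).add_mem hf.1 hg.1, by rw [map_add, hf.2, hg.2, add_zero]⟩
  smul_mem' := fun c f hf => ⟨(Vw d m k).smul_mem c hf.1, by
    rw [Derivation.map_smul, hf.2, smul_zero]⟩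

lemma mem_hw {d m k : ℕ} {f : MvPolynomial (Fin (d + 1)) ℚ} :
    f ∈ hw d m k ↔ f ∈ Vw d m k ∧ t27b_S d f = 0 := Iff.rfl

instance (d m k : ℕ) : Module.Finite ℚ (hw d m k) := by
  have := Vw_finite d m k
  have h : hw d m k ≤ Vw d m k := fun f hf => hf.1
  exact Submodule.finiteDimensional_of_le h

/-- the multiplicity -/
noncomputable def mu (d m k : ℕ) : ℕ := Module.finrank ℚ (hw d m k)

/-- `∏_v ∏_w ((X_v - X_w)^2)^(h v w)` -/
noncomputable def gp {p : ℕ} (h : Fin p → Fin p → ℕ) : MvPolynomial (Fin p) ℚ :=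
  ∏ v, ∏ w, ((X v - X w) ^ 2) ^ h v w

/-- the sum of `∏_v ∏_w ((X_v - X_w)^2)^(h (τ v) (τ w))` over all permutations -/
noncomputable def gF {p : ℕ} (h : Fin p → Fin p → ℕ) : MvPolynomial (Fin p) ℚ :=
  ∑ τ : Equiv.Perm (Fin p), gp fun v w => h (τ v) (τ w)

/-- `∑_{v < w} h v w W^(p - 1 - v)` -/
def Wd {p : ℕ} (W : ℕ) (h : Fin p → Fin p → ℕ) : ℕ :=
  ∑ v : Fin p, ∑ w : Fin p, if v < w then h v w * W ^ (p - 1 - (v : ℕ)) else 0

/-- the substitution `X_v = Y^(W^(p - 1 - v))` -/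
noncomputable def ev (p W : ℕ) : MvPolynomial (Fin p) ℚ →ₐ[ℚ] Polynomial ℚ :=
  aeval fun v : Fin p => (Polynomial.X : Polynomial ℚ) ^ (W ^ (p - 1 - (v : ℕ)))

/-- symmetric matrix with zero diagonal and row sums `r` -/
structure Reg {p : ℕ} (h : Fin p → Fin p → ℕ) (r : ℕ) : Prop where
  symm : ∀ v w, h v w = h w v
  diag : ∀ v, h v v = 0
  row : ∀ v, ∑ w, h v w = r

/-- the matrices of the perturbations (`2 ≤ a ≤ p - 2`): row sums over `{0, ..., p - 1}` are zero -/
def Cm (p a i j : ℕ) : ℤ :=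
  if i = j then 0
  else if i < a ∧ j < a then -(((p : ℤ) - a) * (p - a - 1))
  else if i < a ∨ j < a then ((a : ℤ) - 1) * (p - a - 1)
  else -((a : ℤ) * (a - 1))

/-- the weights of the graph, as integers -/
def hz (p K : ℕ) (s : ℕ → ℕ) (i j : ℕ) : ℤ :=
  if i = j then 0 else (K : ℤ) * p ^ 6 + ∑ a ∈ Icc 2 (p - 2), (s a : ℤ) * Cm p a i j

/-- the weights of the graph -/
def hn (p K : ℕ) (s : ℕ → ℕ) (i j : ℕ) : ℕ := (hz p K s i j).toNat

/-- admissible parameters -/
structure Adm (p K : ℕ) (s : ℕ → ℕ) : Prop where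
  two : p ^ 3 * K + 1 ≤ s 2 ∧ s 2 ≤ p ^ 3 * K + K
  other : ∀ a, 3 ≤ a → a ≤ p - 2 → 1 ≤ s a ∧ s a ≤ K

end Helper87.TL
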