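import Mathlib
import Pool.Agent.Helper87.TL.St.N

/-!
# Project TL: final assembly
-/

set_option autoImplicit false

open Finset

namespace Helper87.TL

open Helper87.TR

theorem main_aux (m : ℕ) (hm : 1 ≤ m) : ∃ n0 : ℕ, ∀ n p q k : ℕ, n0 ≤ n → m * n = p * q → m ≤ p →
    p ≤ q → 2 * k ≤ m * n → mult (m * n) k m n ≤ mult (p * q) k p q := by
  have hex : ∀ p : ℕ, ∃ q1 : ℕ, 2 ≤ m → m + 2 ≤ p → 6 ≤ p →
      ∀ q ≥ q1, ∀ n k, m * n = p * q → 2 * k ≤ m * n → mu m n k ≤ mu p q k := by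
    intro p
    by_cases h : 2 ≤ m ∧ m + 2 ≤ p ∧ 6 ≤ p
    · obtain ⟨q1, h1⟩ := mu_large m p h.1 h.2.1 h.2.2
      exact ⟨q1, fun _ _ _ => h1⟩
    · exact ⟨0, fun a b c => absurd ⟨a, b, c⟩ h⟩
  choose Q hQ using hex
  refine ⟨m * ∑ p ∈ range (m * m), Q p, fun n p q k hn h hp hpq hk => ?_⟩
  have hp1 : 1 ≤ p := hm.trans hp
  have hq1 : 1 ≤ q := hp1.trans hpq
  have hn1 : 1 ≤ n := by
    rcases Nat.eq_zero_or_pos n with h0 | h0
    · rw [h0, Nat.mul_zero] at h
      have := Nat.mul_pos hp1 hq1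
      omega
    · exact h0
  by_cases hd : m ∣ p ∨ m ∣ q
  · exact main m n p q k hm h hp (hp.trans hpq) hd hk
  by_cases hl : m * m ≤ 2 * p
  · refine (main_chain m n p q k hm h hp (hp.trans hpq) ?_ hk).2
    refine chain_of_large m n p q hm h hp (hp.trans hpq) ?_
    rw [min_eq_left hpq]
    exact hl
  push Not at hd hl
  obtain ⟨hd1, hd2⟩ := hd
  have hmpq : m ∣ p * q := ⟨n, h.symm⟩
  have h4 : 4 ≤ m := by
    by_contra h5
    have h6 : m = 1 ∨ m = 2 ∨ m = 3 := by omega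
    rcases h6 with rfl | rfl | rfl
    · exact hd1 (one_dvd _)
    · rcases (Nat.Prime.dvd_mul Nat.prime_two).1 hmpq with h7 | h7
      · exact hd1 h7
      · exact hd2 h7
    · rcases (Nat.Prime.dvd_mul Nat.prime_three).1 hmpq with h7 | h7
      · exact hd1 h7
      · exact hd2 h7
  have h5 : m + 2 ≤ p := by
    by_contra h5
    have h6 : p = m ∨ p = m + 1 := by omega
    rcases h6 with rfl | rfl
    · exact hd1 (dvd_refl _)
    · refine hd2 (Nat.Coprime.dvd_of_dvd_mul_left ?_ hmpq)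
      simp
  rw [mult_eq_mu m n k hm hn1 hk, mult_eq_mu p q k hp1 hq1 (h ▸ hk)]
  refine hQ p (by omega) h5 (by omega) q ?_ n k h hk
  have h6 : Q p ≤ ∑ p ∈ range (m * m), Q p :=
    single_le_sum (f := Q) (fun _ _ => Nat.zero_le _) (mem_range.2 (by omega))
  have h7 : m * (m * ∑ p ∈ range (m * m), Q p) ≤ m * m * q := by
    refine (Nat.mul_le_mul_left m hn).trans ?_
    rw [h]
    exact Nat.mul_le_mul_right q (by omega)
  rw [← Nat.mul_assoc] at h7
  exact h6.trans (Nat.le_of_mul_le_mul_left h7 (by positivity))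

/-- the two-row inequality for large `n` -/
theorem main_large (m : ℕ) (hm : 1 ≤ m) : ∃ n0 : ℕ, ∀ n p q k : ℕ, n0 ≤ n → m * n = p * q → m ≤ p →
    m ≤ q → 2 * k ≤ m * n →
    specMult (m * n) k n m ≤ specMult (p * q) k q p ∧
      specMult (m * n) k m n ≤ specMult (p * q) k p q := by
  obtain ⟨n0, h0⟩ := main_aux m hm
  refine ⟨n0, fun n p q k hn h hp hq hk => ?_⟩
  simp only [specMult_eq]
  have hp1 : 1 ≤ p := hm.trans hp
  have hq1 : 1 ≤ q := hm.trans hq
  have hn1 : 1 ≤ n := by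
    rcases Nat.eq_zero_or_pos n with h1 | h1
    · rw [h1, Nat.mul_zero] at h
      have := Nat.mul_pos hp1 hq1
      omega
    · exact h1
  have h1 : mult (m * n) k m n ≤ mult (p * q) k p q := by
    rcases le_total p q with h2 | h2
    · exact h0 n p q k hn h hp h2 hk
    · have h3 := h0 n q p k hn (by rw [h, Nat.mul_comm]) hq h2 hk
      rw [Nat.mul_comm q p] at h3
      rw [mult_swap p q k hp1 hq1 (h ▸ hk)] at h3
      exact h3
  refine ⟨?_, h1⟩
  rw [mult_swap m n k hm hn1 hk, mult_swap p q k hp1 hq1 (h ▸ hk)]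
  exact h1

end Helper87.TL
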